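import Pool.Agent.KS6_11.GIGk.Prob

set_option autoImplicit false

/-!
# MP_1c00b2_pr, Q1 (no), for every number `k ≥ 2` of servers and with the optimal coefficient

`Pool.Agent.KS6_11.GIGk.Step s t v v'`: the vector `v` of the workloads of the `k` servers becomes
`v'` when a customer with service time `s` joins a least loaded server and the next customer comes
after the time `t` (the Kiefer–Wolfowitz recursion, without the sorting). The wait of customer `n`
is the least entry `⨅ i, V n ω i` of the workload vector.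
-/

namespace Pool.Agent.Results.MP_1c00b2_pr.OptimalCoefficient

open MeasureTheory ProbabilityTheory
open Pool.Agent.KS6_11.GIGk (Step)

/-- **In the bound `(ρ (2 - ρ) σ_T² + σ_S² / k) / (2 (1 - ρ) a)` for the mean wait in stable queues
with `k` servers the coefficient `1 / k` of `σ_S²` cannot be replaced by any `c < 1 / k`**, for no
`k`; so the bound of Q1, with `c = 1 / k²`, fails for every `k ≥ 2`. In detail, for `c < 1 / k`:

1. For every `ρ₀ < 1` there is a law `ν` on `[0, k + 1]` such that the queues with service law `ν` and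
   interarrival times `T = 1` have `ρ₀ < ρ < 1` and satisfy, for some
   `m > c σ_S² / (2 (1 - ρ))` and some `N`: whatever the workloads at the arrival of the first
   customer are, `E min (1, W_n) ≥ m` for all `n ≥ N`, and the mean of the limit law of the waits is
   at least `m` (if the waits converge in law).
2. In particular, for no function `A` is the mean wait in all stable queues with `k` servers,
   started empty, at most `(A(ρ) σ_T² + c σ_S²) / (2 (1 - ρ) a)`. -/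
theorem result (k : ℕ) (hk : 0 < k) (c : ℝ) (hc : c < 1 / k) :
    (∀ ρ₀ : ℝ, ρ₀ < 1 →
      ∃ ν : Measure ℝ, IsProbabilityMeasure ν ∧ (∀ᵐ x ∂ν, 0 ≤ x ∧ x ≤ (k : ℝ) + 1) ∧
      ρ₀ < (∫ x, x ∂ν) / k ∧ (∫ x, x ∂ν) / k < 1 ∧ ∃ m : ℝ, 0 < m ∧
      c * variance id ν / (2 * (1 - (∫ x, x ∂ν) / k)) < m ∧ ∃ N : ℕ,
      ∀ (Ω : Type) [MeasurableSpace Ω] (μ : Measure Ω) [IsProbabilityMeasure μ]
        (S : ℕ → Ω → ℝ) (V : ℕ → Ω → Fin k → ℝ), (∀ n, Measurable (S n)) → iIndepFun S μ →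
        (∀ n, μ.map (S n) = ν) → (∀ ω i, 0 ≤ V 0 ω i) →
        (∀ n ω, Step (S n ω) 1 (V n ω) (V (n + 1) ω)) →
        (∀ n, N ≤ n → ENNReal.ofReal m ≤ ∫⁻ ω, ENNReal.ofReal (min 1 (⨅ i, V n ω i)) ∂μ) ∧
        ∀ L : Measure ℝ, IsProbabilityMeasure L → (∀ n, Measurable fun ω => ⨅ i, V n ω i) →
          (∀ f : BoundedContinuousFunction ℝ ℝ, Filter.Tendsto
            (fun n => ∫ ω, f (⨅ i, V n ω i) ∂μ) Filter.atTop (nhds (∫ x, f x ∂L))) →
          ENNReal.ofReal m ≤ ∫⁻ x, ENNReal.ofReal x ∂L) ∧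
    (∀ A : ℝ → ℝ,
      ¬ (∀ (Ω : Type) [MeasurableSpace Ω] (μ : Measure Ω) [IsProbabilityMeasure μ]
      (T S : ℕ → Ω → ℝ) (V : ℕ → Ω → Fin k → ℝ) (ρ : ℝ),
      (∀ n, Measurable (T n)) → (∀ n, Measurable (S n)) →
      iIndepFun (fun n ω => (T n ω, S n ω)) μ →
      (∀ n, IndepFun (T n) (S n) μ) →
      (∀ n, IdentDistrib (T n) (T 0) μ μ) →
      (∀ n, IdentDistrib (S n) (S 0) μ μ) →
      (∀ n ω, 0 ≤ T n ω) → (∀ n ω, 0 ≤ S n ω) →
      MemLp (T 0) 2 μ → MemLp (S 0) 2 μ →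
      0 < ∫ ω, T 0 ω ∂μ →
      ρ = (∫ ω, S 0 ω ∂μ) / ((k : ℝ) * ∫ ω, T 0 ω ∂μ) →
      ρ < 1 →
      (∀ ω i, V 0 ω i = 0) →
      (∀ n ω, Step (S n ω) (T n ω) (V n ω) (V (n + 1) ω)) →
      ∀ n, ∫⁻ ω, ENNReal.ofReal (⨅ i, V n ω i) ∂μ ≤
        ENNReal.ofReal ((A ρ * variance (T 0) μ + c * variance (S 0) μ) /
          (2 * (1 - ρ) * ∫ ω, T 0 ω ∂μ)))) :=
  ⟨fun ρ₀ hρ => Pool.Agent.KS6_11.GIGk.main k hk c hc ρ₀ hρ,
    fun A => Pool.Agent.KS6_11.GIGk.fails k hk A c hc⟩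

end Pool.Agent.Results.MP_1c00b2_pr.OptimalCoefficient
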